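import Pool.Agent.R184PI.Index

/-!
A Banach space `Y` whose Calkin algebra is `O_∞`: `Y × Y` has the primary factorisation property
and is not isomorphic to `Y`.
-/

set_option autoImplicit false

open Filter Topology

namespace Pool.Agent.R184PI

variable {Y : Type} [NormedAddCommGroup Y] [NormedSpace ℂ Y] [CompleteSpace Y]

instance instNontrivialOA : Nontrivial OA := by
  refine ⟨⟨0, 1, fun h => ?_⟩⟩
  have h1 : (0 : BB) = 1 := congrArg Subtype.val h
  have h2 : (0 : Fk Unit) ([], ()) = vac ([], ()) :=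
    congrArg (fun a : BB => (a.1 vac) ([], ())) h1
  rw [vac_nil] at h2
  exact zero_ne_one h2

omit [CompleteSpace Y] in
theorem not_finite (φ : (Y →L[ℂ] Y) →ₐ[ℂ] OA)
    (hφ : ∀ T, φ T = 0 ↔ IsCompactOperator T) : ¬ FiniteDimensional ℂ Y := by
  intro h
  have h1 : IsCompactOperator (1 : Y →L[ℂ] Y) := by
    have : ProperSpace Y := FiniteDimensional.proper_rclike ℂ Y
    exact isCompactOperator_of_locallyCompactSpace_dom (1 : Y →L[ℂ] Y)
  have h2 := (hφ 1).2 h1
  rw [map_one] at h2
  exact one_ne_zero h2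

theorem isCompactOperator_sum {E F : Type} [NormedAddCommGroup E] [NormedSpace ℂ E]
    [NormedAddCommGroup F] [NormedSpace ℂ F] {κ : Type} (s : Finset κ) (f : κ → E →L[ℂ] F)
    (h : ∀ i ∈ s, IsCompactOperator (f i)) : IsCompactOperator (∑ i ∈ s, f i : E →L[ℂ] F) := by
  classical
  induction s using Finset.induction_on with
  | empty => simpa using isCompactOperator_zero
  | insert a s ha ih =>
    rw [Finset.sum_insert ha]
    exact (h a (Finset.mem_insert_self a s)).add
      (ih fun i hi => h i (Finset.mem_insert_of_mem hi))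

/-- The coordinate embeddings of the cube. -/
noncomputable def emb (i : Fin 3) : Y →L[ℂ] ((Y × Y) × Y) :=
  match i with
  | 0 => (ContinuousLinearMap.inl ℂ (Y × Y) Y).comp (ContinuousLinearMap.inl ℂ Y Y)
  | 1 => (ContinuousLinearMap.inl ℂ (Y × Y) Y).comp (ContinuousLinearMap.inr ℂ Y Y)
  | 2 => ContinuousLinearMap.inr ℂ (Y × Y) Y

/-- The coordinate projections of the cube. -/
noncomputable def prj (i : Fin 3) : ((Y × Y) × Y) →L[ℂ] Y :=
  match i with
  | 0 => (ContinuousLinearMap.fst ℂ Y Y).comp (ContinuousLinearMap.fst ℂ (Y × Y) Y)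
  | 1 => (ContinuousLinearMap.snd ℂ Y Y).comp (ContinuousLinearMap.fst ℂ (Y × Y) Y)
  | 2 => ContinuousLinearMap.snd ℂ (Y × Y) Y

omit [CompleteSpace Y] in
theorem sum_emb_prj (z : (Y × Y) × Y) : ∑ i : Fin 3, emb i (prj i z) = z := by
  obtain ⟨⟨a, b⟩, c⟩ := z
  rw [Fin.sum_univ_three]
  change (((a, 0), 0) : (Y × Y) × Y) + ((0, b), 0) + ((0, 0), c) = ((a, b), c)
  simp

/-- If the class of `S` in the Calkin algebra is nonzero, the identity of `Y × Y` factors
through `S`. -/
theorem factor (φ : (Y →L[ℂ] Y) →ₐ[ℂ] OA) (hs : Function.Surjective φ)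
    (hφ : ∀ T, φ T = 0 ↔ IsCompactOperator T) {S : Y →L[ℂ] Y} (hS : φ S ≠ 0) :
    ∃ (A : Y →L[ℂ] (Y × Y)) (B : (Y × Y) →L[ℂ] Y), ∀ z, A (S (B z)) = z := by
  obtain ⟨x, y, hxy⟩ := exists_mul_mul_eq_one hS
  let G : ℕ → OA := fun N => ⟨gen N, gen_mem N⟩
  have hG : ∀ i j, star (G i) * G j = if i = j then 1 else 0 := by
    intro i j
    refine Subtype.ext ?_
    have h := star_gen_mul i j
    split_ifs with hij
    · rw [if_pos hij] at h; exact h
    · rw [if_neg hij] at h; exact h
  have hA : ∀ i : Fin 3, ∃ A : Y →L[ℂ] Y, φ A = star (G i) * x := fun i => hs _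
  have hB : ∀ i : Fin 3, ∃ B : Y →L[ℂ] Y, φ B = y * G i := fun i => hs _
  choose A hA using hA
  choose B hB using hB
  let C : Fin 3 → Fin 3 → (Y →L[ℂ] Y) := fun i j => A i * S * B j - if i = j then 1 else 0
  have hC : ∀ i j, IsCompactOperator (C i j) := by
    intro i j
    rw [← hφ]
    have h1 : φ (A i) * φ S * φ (B j) = if i = j then 1 else 0 := by
      rw [hA, hB]
      have : star (G i) * x * φ S * (y * G j) = star (G i) * (x * φ S * y) * G j := by
        simp only [mul_assoc]
      rw [this, hxy, mul_one, hG]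
      by_cases h : i = j
      · subst h; simp
      · rw [if_neg h, if_neg (fun h' => h (Fin.ext h'))]
    simp only [C]
    rw [map_sub, map_mul, map_mul, h1]
    split_ifs
    · rw [map_one, sub_self]
    · rw [map_zero, sub_self]
  let K : ((Y × Y) × Y) →L[ℂ] ((Y × Y) × Y) :=
    ∑ i : Fin 3, ∑ j : Fin 3, (emb i).comp ((C i j).comp (prj j))
  have hK : IsCompactOperator K := by
    refine isCompactOperator_sum _ _ fun i _ => isCompactOperator_sum _ _ fun j _ => ?_
    exact ((hC i j).comp_clm (prj j)).clm_comp (emb i)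
  obtain ⟨U, V, hUV⟩ := exists_factor (W := Y × Y) (not_finite φ hφ) hK
  have key : ∀ z, ((1 : ((Y × Y) × Y) →L[ℂ] ((Y × Y) × Y)) + K) z =
      ∑ i : Fin 3, emb i (A i (S (∑ j : Fin 3, B j (prj j z)))) := by
    intro z
    have h1 : K z = ∑ i : Fin 3, ∑ j : Fin 3, emb i (C i j (prj j z)) := by
      simp only [K, sum_apply, ContinuousLinearMap.comp_apply]
    have h2 : ∀ i, ∑ j : Fin 3, emb i (C i j (prj j z)) =
        emb i (A i (S (∑ j : Fin 3, B j (prj j z)))) - emb i (prj i z) := by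
      intro i
      have h3 : ∀ j, C i j (prj j z) = A i (S (B j (prj j z))) - if i = j then prj j z else 0 := by
        intro j
        simp only [C]
        rw [sub_apply]
        split_ifs <;> rfl
      simp only [h3, map_sub, Finset.sum_sub_distrib, map_sum]
      congr 1
      rw [Finset.sum_eq_single i]
      · simp
      · intro j _ hj
        rw [if_neg (Ne.symm hj), map_zero]
      · intro h; exact absurd (Finset.mem_univ i) h
    rw [add_apply, one_apply_eq_self, h1, Finset.sum_congr rfl fun i _ => h2 i,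
      Finset.sum_sub_distrib, sum_emb_prj]
    abel
  refine ⟨V.comp (∑ i : Fin 3, (emb i).comp (A i)), (∑ j : Fin 3, (B j).comp (prj j)).comp U,
    fun z => ?_⟩
  have h4 := hUV z
  rw [key] at h4
  simpa only [ContinuousLinearMap.comp_apply, sum_apply] using h4

omit [CompleteSpace Y] in
/-- `Y × Y` is not isomorphic to `Y`. -/
theorem not_equiv (φ : (Y →L[ℂ] Y) →ₐ[ℂ] OA) (e : (Y × Y) ≃L[ℂ] Y) : False := by
  let U₁ : Y →L[ℂ] Y := (e : (Y × Y) →L[ℂ] Y).comp (ContinuousLinearMap.inl ℂ Y Y)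
  let U₂ : Y →L[ℂ] Y := (e : (Y × Y) →L[ℂ] Y).comp (ContinuousLinearMap.inr ℂ Y Y)
  let V₁ : Y →L[ℂ] Y := (ContinuousLinearMap.fst ℂ Y Y).comp (e.symm : Y →L[ℂ] (Y × Y))
  let V₂ : Y →L[ℂ] Y := (ContinuousLinearMap.snd ℂ Y Y).comp (e.symm : Y →L[ℂ] (Y × Y))
  have h11 : V₁ * U₁ = 1 := by
    refine ContinuousLinearMap.ext fun y => ?_
    change (e.symm (e (y, 0))).1 = y
    rw [e.symm_apply_apply]
  have h12 : V₁ * U₂ = 0 := by
    refine ContinuousLinearMap.ext fun y => ?_
    change (e.symm (e (0, y))).1 = 0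
    rw [e.symm_apply_apply]
  have h21 : V₂ * U₁ = 0 := by
    refine ContinuousLinearMap.ext fun y => ?_
    change (e.symm (e (y, 0))).2 = 0
    rw [e.symm_apply_apply]
  have h22 : V₂ * U₂ = 1 := by
    refine ContinuousLinearMap.ext fun y => ?_
    change (e.symm (e (0, y))).2 = y
    rw [e.symm_apply_apply]
  have hs : U₁ * V₁ + U₂ * V₂ = 1 := by
    refine ContinuousLinearMap.ext fun y => ?_
    change e ((e.symm y).1, 0) + e (0, (e.symm y).2) = y
    rw [← map_add]
    simp
  have g11 := congrArg φ h11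
  have g12 := congrArg φ h12
  have g21 := congrArg φ h21
  have g22 := congrArg φ h22
  have gs := congrArg φ hs
  simp only [map_mul, map_one, map_zero, map_add] at g11 g12 g21 g22 gs
  exact no_double (φ U₁).2 (φ U₂).2 (congrArg Subtype.val g11) (congrArg Subtype.val g12)
    (congrArg Subtype.val g21) (congrArg Subtype.val g22) (congrArg Subtype.val gs)

end Pool.Agent.R184PI
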