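import Pool.Agent.R184PI.Pull

/-!
The Cuntz algebra `O_∞` in a pair of representations: the Fock representation and its
amplification. It is separable, and every nonzero element `a` satisfies `x a y = 1` for some
`x`, `y`.
-/

set_option autoImplicit false

open Filter Topology

namespace Pool.Agent.R184PI

/-- The ambient pair algebra. -/
abbrev BB : Type := (Fk Unit →L[ℂ] Fk Unit) × (Fk ℕ →L[ℂ] Fk ℕ)

/-- The generating isometries. -/
noncomputable def gen (i : ℕ) : BB := (cr Unit i, cr ℕ i)

theorem star_gen (i : ℕ) : star (gen i) = (an Unit i, an ℕ i) :=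
  Prod.ext (star_cr Unit i) (star_cr ℕ i)

theorem star_gen_mul (i j : ℕ) : star (gen i) * gen j = if i = j then 1 else 0 := by
  rw [star_gen]
  refine Prod.ext ?_ ?_
  · change an Unit i * cr Unit j = _
    rw [an_mul_cr]; split_ifs <;> rfl
  · change an ℕ i * cr ℕ j = _
    rw [an_mul_cr]; split_ifs <;> rfl

/-- The isometry of a word. -/
noncomputable def wd (w : List ℕ) : BB := (w.map gen).prod

theorem wd_nil : wd [] = 1 := rfl

theorem wd_cons (i : ℕ) (w : List ℕ) : wd (i :: w) = gen i * wd w := by
  simp [wd]

theorem wd_append (v w : List ℕ) : wd (v ++ w) = wd v * wd w := by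
  simp [wd]

/-- The monomials. -/
noncomputable def mon (p : List ℕ × List ℕ) : BB := wd p.1 * star (wd p.2)

/-- The span of the monomials. -/
noncomputable def monSpan : Submodule ℂ BB := Submodule.span ℂ (Set.range mon)

theorem gen_mul_mon (i : ℕ) (p : List ℕ × List ℕ) : gen i * mon p = mon (i :: p.1, p.2) := by
  rw [mon, mon, wd_cons, mul_assoc]

theorem star_gen_mul_mon (i : ℕ) (p : List ℕ × List ℕ) :
    star (gen i) * mon p ∈ monSpan := by
  obtain ⟨v, w⟩ := p
  match v with
  | [] =>
    have : star (gen i) * mon ([], w) = mon ([], w ++ [i]) := by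
      rw [mon, mon]
      simp only [wd_nil, one_mul]
      rw [wd_append, star_mul, wd_cons, wd_nil, mul_one]
    rw [this]
    exact Submodule.subset_span ⟨_, rfl⟩
  | j :: v =>
    have : star (gen i) * mon (j :: v, w) = (if i = j then 1 else 0) * mon (v, w) := by
      rw [mon, mon]
      simp only [wd_cons]
      rw [← mul_assoc, ← mul_assoc, star_gen_mul, mul_assoc]
    rw [this]
    split_ifs with h
    · rw [one_mul]
      exact Submodule.subset_span ⟨_, rfl⟩
    · rw [zero_mul]
      exact Submodule.zero_mem _

theorem one_mem_monSpan : (1 : BB) ∈ monSpan := by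
  refine Submodule.subset_span ⟨([], []), ?_⟩
  rw [mon]
  simp [wd_nil]

/-- Elements multiplying the monomial span into itself. -/
noncomputable def leftStab : Subalgebra ℂ BB where
  carrier := {a | ∀ t ∈ monSpan, a * t ∈ monSpan}
  mul_mem' := by
    intro a b ha hb t ht
    rw [mul_assoc]
    exact ha _ (hb t ht)
  add_mem' := by
    intro a b ha hb t ht
    rw [add_mul]
    exact Submodule.add_mem _ (ha t ht) (hb t ht)
  algebraMap_mem' := by
    intro c t ht
    rw [Algebra.algebraMap_eq_smul_one, smul_mul_assoc, one_mul]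
    exact Submodule.smul_mem _ c ht

theorem mem_leftStab {a : BB} (h : ∀ p, a * mon p ∈ monSpan) : a ∈ leftStab := by
  intro t ht
  have hle : monSpan ≤ monSpan.comap (LinearMap.mulLeft ℂ a) := by
    rw [monSpan, Submodule.span_le]
    rintro _ ⟨p, rfl⟩
    exact h p
  exact hle ht

theorem adjoin_le_monSpan {a : BB} (ha : a ∈ StarAlgebra.adjoin ℂ (Set.range gen)) :
    a ∈ monSpan := by
  have h1 : Algebra.adjoin ℂ (Set.range gen ∪ star (Set.range gen)) ≤ leftStab := by
    rw [Algebra.adjoin_le_iff]
    rintro x (⟨i, rfl⟩ | hx)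
    · exact mem_leftStab fun p => by
        rw [gen_mul_mon]
        exact Submodule.subset_span ⟨_, rfl⟩
    · obtain ⟨i, hi⟩ := hx
      have : x = star (gen i) := by rw [hi, star_star]
      rw [this]
      exact mem_leftStab fun p => star_gen_mul_mon i p
  have h2 : a ∈ Algebra.adjoin ℂ (Set.range gen ∪ star (Set.range gen)) := by
    rw [← StarAlgebra.adjoin_toSubalgebra]
    exact ha
  have h3 := h1 h2 1 one_mem_monSpan
  rwa [mul_one] at h3

/-- The algebra `O_∞`. -/
noncomputable def OO : StarSubalgebra ℂ BB :=
  (StarAlgebra.adjoin ℂ (Set.range gen)).topologicalClosure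

theorem isClosed_OO : IsClosed (OO : Set BB) :=
  StarSubalgebra.isClosed_topologicalClosure _

theorem gen_mem (i : ℕ) : gen i ∈ OO :=
  StarSubalgebra.le_topologicalClosure _ (StarAlgebra.subset_adjoin ℂ _ ⟨i, rfl⟩)

theorem wd_mem (w : List ℕ) : wd w ∈ OO := by
  induction w with
  | nil => exact one_mem OO
  | cons i w ih => rw [wd_cons]; exact mul_mem (gen_mem i) ih

/-- A closed subspace containing the monomials contains the algebra. -/
theorem mem_of_mon {V : Submodule ℂ BB} (hV : IsClosed (V : Set BB)) (h : ∀ p, mon p ∈ V)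
    {a : BB} (ha : a ∈ OO) : a ∈ V := by
  have h1 : ((StarAlgebra.adjoin ℂ (Set.range gen) : StarSubalgebra ℂ BB) : Set BB) ⊆ V := by
    intro x hx
    have h2 : monSpan ≤ V := by
      rw [monSpan, Submodule.span_le]
      rintro _ ⟨p, rfl⟩
      exact h p
    exact h2 (adjoin_le_monSpan hx)
  have h2 : (OO : Set BB) ⊆ V := by
    rw [OO, StarSubalgebra.topologicalClosure_coe]
    exact closure_minimal h1 hV
  exact h2 ha

instance : Countable (List ℕ × List ℕ) := inferInstance

theorem isSeparable_OO : TopologicalSpace.IsSeparable (OO : Set BB) := by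
  have h1 : TopologicalSpace.IsSeparable (Set.range mon) := (Set.countable_range mon).isSeparable
  have h2 : TopologicalSpace.IsSeparable (monSpan : Set BB) := h1.span
  have h3 : TopologicalSpace.IsSeparable
      ((StarAlgebra.adjoin ℂ (Set.range gen) : StarSubalgebra ℂ BB) : Set BB) :=
    h2.mono fun x hx => adjoin_le_monSpan hx
  rw [OO, StarSubalgebra.topologicalClosure_coe]
  exact h3.closure

/-- The algebra as a type. -/
abbrev OA : Type := ↥OO

instance instClosedOO : IsClosed (OO : Set BB) := isClosed_OO

noncomputable instance instCStarOA : CStarAlgebra OA := StarSubalgebra.cstarAlgebra OO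

instance instSepOA : TopologicalSpace.SeparableSpace OA := isSeparable_OO.separableSpace

end Pool.Agent.R184PI
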