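import Mathlib

/-!
Riesz theory: an identity plus compact operator becomes invertible after a finite rank
perturbation, and on `W × Y` with `Y` infinite dimensional the identity of `W` factors through it.
-/

set_option autoImplicit false

open Filter Topology Module

namespace Pool.Agent.R184PI

variable {𝕜 : Type*} [RCLike 𝕜]
variable {Z : Type*} [NormedAddCommGroup Z] [NormedSpace 𝕜 Z]

/-- An identity plus compact operator which is surjective is injective. -/
theorem injective_of_surjective {K : Z →L[𝕜] Z} (hK : IsCompactOperator K)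
    (hS : Function.Surjective ((1 : Z →L[𝕜] Z) + K)) :
    Function.Injective ((1 : Z →L[𝕜] Z) + K) := by
  set S : Z →L[𝕜] Z := 1 + K with hSdef
  by_contra hinj
  have hex : ∃ x, S x = 0 ∧ x ≠ 0 := by
    by_contra h
    push Not at h
    exact hinj ((injective_iff_map_eq_zero S).2 h)
  obtain ⟨x0, hx0, hx0'⟩ := hex
  -- a chain of generalized kernel vectors
  choose g hg using hS
  let x : ℕ → Z := fun n => g^[n] x0
  have hx : ∀ n, S (x (n + 1)) = x n := fun n => by
    simp only [x, Function.iterate_succ_apply']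
    exact hg _
  let N : ℕ → Submodule 𝕜 Z := fun n => LinearMap.ker ((S ^ n : Z →L[𝕜] Z) : Z →ₗ[𝕜] Z)
  have hNmem : ∀ n z, z ∈ N n ↔ (S ^ n) z = 0 := fun n z => Iff.rfl
  have hxpow : ∀ n m, (S ^ n) (x (n + m)) = x m := by
    intro n
    induction n with
    | zero => intro m; simp
    | succ n ih =>
      intro m
      rw [pow_succ, mul_apply_eq_comp, show n + 1 + m = (n + m) + 1 by ring, hx, ih]
  have hx0eq : x 0 = x0 := rfl
  have hxN : ∀ n, x n ∈ N (n + 1) := fun n => by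
    rw [hNmem, pow_succ', mul_apply_eq_comp]
    have := hxpow n 0
    rw [add_zero] at this
    rw [this, hx0eq, hx0]
  have hxN' : ∀ n, x n ∉ N n := fun n => by
    rw [hNmem]
    have := hxpow n 0
    rw [add_zero] at this
    rw [this, hx0eq]
    exact hx0'
  have hmono : ∀ n m, n ≤ m → N n ≤ N m := by
    intro n m h z hz
    rw [hNmem] at hz ⊢
    obtain ⟨k, rfl⟩ := Nat.exists_eq_add_of_le h
    rw [add_comm, pow_add, mul_apply_eq_comp, hz, map_zero]
  have hmap : ∀ n z, z ∈ N (n + 1) → S z ∈ N n := by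
    intro n z hz
    rw [hNmem] at hz ⊢
    rwa [pow_succ, mul_apply_eq_comp] at hz
  have hclosed : ∀ n, IsClosed (N n : Set Z) := fun n =>
    (S ^ n : Z →L[𝕜] Z).isClosed_ker
  have hriesz : ∀ n, ∃ y ∈ N (n + 1), ‖y‖ ≤ 3 ∧ ∀ z ∈ N n, 1 ≤ ‖y - z‖ := by
    intro n
    have h₁ : IsClosed ((N n).comap (N (n + 1)).subtype : Set (N (n + 1))) := by
      simpa using! (hclosed n).preimage_val
    have h₂ : ∃ z : N (n + 1), z ∉ (N n).comap (N (n + 1)).subtype :=
      ⟨⟨x n, hxN n⟩, fun h => hxN' n h⟩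
    obtain ⟨c, hc⟩ := NormedField.exists_one_lt_norm 𝕜
    have hc2 : (1 : ℝ) < ‖((2 : ℝ) : 𝕜)‖ := by
      rw [RCLike.norm_ofReal]; norm_num
    have hR : ‖((2 : ℝ) : 𝕜)‖ < 3 := by
      rw [RCLike.norm_ofReal]; norm_num
    obtain ⟨⟨y, hy⟩, hyn, hyz⟩ := riesz_lemma_of_norm_lt hc2 hR h₁ h₂
    refine ⟨y, hy, hyn, fun z hz => ?_⟩
    exact hyz ⟨z, hmono n (n + 1) (Nat.le_succ n) hz⟩ hz
  choose y hy hyn hyz using hriesz
  have hsep : ∀ m n, m < n → 1 ≤ ‖K (y n) - K (y m)‖ := by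
    intro m n hmn
    have e : K (y n) - K (y m) = -(y n - (S (y n) - S (y m) + y m)) := by
      simp only [hSdef, add_apply, one_apply_eq_self]
      abel
    rw [e, norm_neg]
    refine hyz n _ ?_
    refine Submodule.add_mem _ (Submodule.sub_mem _ (hmap n _ (hy n)) ?_) ?_
    · exact hmono m n hmn.le (hmap m _ (hy m))
    · exact hmono (m + 1) n hmn (hy m)
  obtain ⟨C, hC, hC'⟩ := hK.image_closedBall_subset_compact 3
  obtain ⟨w, hw, ψ, hψ, hψw⟩ := hC.tendsto_subseq (x := fun n => K (y n))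
    (fun n => hC' ⟨y n, by simpa using hyn n, rfl⟩)
  have hcau := hψw.cauchySeq
  rw [Metric.cauchySeq_iff'] at hcau
  obtain ⟨M, hM⟩ := hcau 1 one_pos
  have h1 := hM (M + 1) (Nat.le_succ M)
  rw [dist_eq_norm_sub] at h1
  exact absurd (hsep _ _ (hψ (Nat.lt_succ_self M))) (not_le.2 h1)

variable [CompleteSpace Z]

/-- An identity plus compact operator which is injective is invertible. -/
theorem isUnit_of_injective {K : Z →L[𝕜] Z} (hK : IsCompactOperator K)
    (hS : Function.Injective ((1 : Z →L[𝕜] Z) + K)) : IsUnit ((1 : Z →L[𝕜] Z) + K) := by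
  have hK' : IsCompactOperator (-K : Z →L[𝕜] Z) := by
    simpa using hK.neg
  rcases hK'.hasEigenvalue_or_mem_resolventSet (μ := (1 : 𝕜)) one_ne_zero with h | h
  · exfalso
    obtain ⟨v, hv⟩ := h.exists_hasEigenvector
    have h1 := hv.apply_eq_smul
    have h2 : ((1 : Z →L[𝕜] Z) + K) v = 0 := by
      have h3 : (-K : Z →L[𝕜] Z) v = (1 : 𝕜) • v := h1
      rw [one_smul, neg_apply] at h3
      rw [add_apply, one_apply_eq_self]
      nth_rewrite 1 [← h3]
      abel
    exact hv.2 ((injective_iff_map_eq_zero _).1 hS v h2)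
  · rw [spectrum.mem_resolventSet_iff] at h
    simpa [sub_neg_eq_add] using h

omit [CompleteSpace Z] in
theorem finite_ker {K : Z →L[𝕜] Z} (hK : IsCompactOperator K) :
    FiniteDimensional 𝕜 (LinearMap.ker (((1 : Z →L[𝕜] Z) + K : Z →L[𝕜] Z) : Z →ₗ[𝕜] Z)) := by
  set N := LinearMap.ker (((1 : Z →L[𝕜] Z) + K : Z →L[𝕜] Z) : Z →ₗ[𝕜] Z) with hN
  have hcl : IsClosed (N : Set Z) := ((1 : Z →L[𝕜] Z) + K : Z →L[𝕜] Z).isClosed_ker
  have hneg : ∀ v ∈ N, (-K : Z →L[𝕜] Z) v = v := by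
    intro v hv
    have h : v + K v = 0 := hv
    rw [neg_apply]
    exact (eq_neg_of_add_eq_zero_left h).symm
  have hK' : IsCompactOperator (-K : Z →L[𝕜] Z) := by simpa using hK.neg
  have hmem : ∀ v ∈ N, ((-K : Z →L[𝕜] Z) : Z →ₗ[𝕜] Z) v ∈ N := by
    intro v hv
    have h := hneg v hv
    have h' : ((-K : Z →L[𝕜] Z) : Z →ₗ[𝕜] Z) v = v := h
    rw [h']
    exact hv
  have h1 := IsCompactOperator.restrict (f := ((-K : Z →L[𝕜] Z) : Z →ₗ[𝕜] Z)) hK' hmem hcl
  have h2 : (((-K : Z →L[𝕜] Z) : Z →ₗ[𝕜] Z).restrict hmem : N → N) = id := by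
    funext v
    exact Subtype.ext (hneg v.1 v.2)
  rw [h2] at h1
  exact FiniteDimensional.of_isCompactOperator_id (𝕜 := 𝕜) h1

/-- An identity plus compact operator becomes invertible after a finite rank perturbation. -/
theorem exists_isUnit_add {K : Z →L[𝕜] Z} (hK : IsCompactOperator K) :
    ∃ F : Z →L[𝕜] Z, FiniteDimensional 𝕜 (LinearMap.range (F : Z →ₗ[𝕜] Z)) ∧
      IsUnit ((1 : Z →L[𝕜] Z) + K + F) := by
  set S : Z →L[𝕜] Z := 1 + K with hSdef
  set N := LinearMap.ker (S : Z →ₗ[𝕜] Z) with hN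
  have hfin : FiniteDimensional 𝕜 N := finite_ker hK
  obtain ⟨π, hπ⟩ := Submodule.ClosedComplemented.of_finiteDimensional (𝕜 := 𝕜) N
  set R := LinearMap.range (S : Z →ₗ[𝕜] Z) with hR
  -- a linear map into the quotient which is injective or surjective
  have hJ : ∃ J : N →ₗ[𝕜] (Z ⧸ R), Function.Injective J ∨ Function.Surjective J := by
    rcases le_total (Module.rank 𝕜 N) (Module.rank 𝕜 (Z ⧸ R)) with h | h
    · obtain ⟨J, hJ⟩ := rank_le_iff_exists_linearMap.1 h
      exact ⟨J, Or.inl hJ⟩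
    · obtain ⟨I, hI⟩ := rank_le_iff_exists_linearMap.1 h
      obtain ⟨J, hJ⟩ := I.exists_leftInverse_of_injective (LinearMap.ker_eq_bot.2 hI)
      exact ⟨J, Or.inr fun q => ⟨I q, by
        have := congrArg (fun L : (Z ⧸ R) →ₗ[𝕜] (Z ⧸ R) => L q) hJ
        simpa using this⟩⟩
  obtain ⟨J, hJ⟩ := hJ
  obtain ⟨σ, hσ⟩ := R.mkQ.exists_rightInverse_of_surjective R.range_mkQ
  have hσ' : ∀ q, R.mkQ (σ q) = q := fun q => by
    have := congrArg (fun L : (Z ⧸ R) →ₗ[𝕜] (Z ⧸ R) => L q) hσ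
    simpa using this
  let L : N →L[𝕜] Z := LinearMap.toContinuousLinearMap (σ ∘ₗ J)
  have hL : ∀ v, R.mkQ (L v) = J v := fun v => hσ' _
  have hLR : ∀ v, L v ∈ R → J v = 0 := fun v hv => by
    rw [← hL]
    exact (Submodule.Quotient.mk_eq_zero R).2 hv
  have hSR : ∀ z, S z ∈ R := fun z => ⟨z, rfl⟩
  let F : Z →L[𝕜] Z := L.comp π
  have hF : ∀ z, F z = L (π z) := fun z => rfl
  have hSN : ∀ v : N, S (v : Z) = 0 := fun v => v.2
  have hcomp : IsCompactOperator F := by
    have h1 : IsCompactOperator (π : Z → N) := by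
      have : ProperSpace N := FiniteDimensional.proper_rclike 𝕜 N
      exact isCompactOperator_of_locallyCompactSpace_dom π
    exact h1.clm_comp L
  refine ⟨F, ?_, ?_⟩
  · have hle : LinearMap.range (F : Z →ₗ[𝕜] Z) ≤ LinearMap.range (L : N →ₗ[𝕜] Z) := by
      rintro _ ⟨z, rfl⟩
      exact ⟨π z, rfl⟩
    have : FiniteDimensional 𝕜 (LinearMap.range (L : N →ₗ[𝕜] Z)) := inferInstance
    exact Submodule.finiteDimensional_of_le hle
  · have hadd : ((1 : Z →L[𝕜] Z) + K + F) = 1 + (K + F) := add_assoc _ _ _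
    have hKF : IsCompactOperator (K + F : Z →L[𝕜] Z) := hK.add hcomp
    rw [hSdef, hadd]
    rcases hJ with hJ | hJ
    · refine isUnit_of_injective hKF ?_
      rw [← hadd, ← hSdef]
      rw [injective_iff_map_eq_zero]
      intro z hz
      rw [add_apply] at hz
      have h1 : L (π z) ∈ R := by
        rw [← hF, eq_neg_of_add_eq_zero_right hz]
        exact R.neg_mem (hSR z)
      have h2 : π z = 0 := (injective_iff_map_eq_zero J).1 hJ _ (hLR _ h1)
      rw [hF, h2, map_zero, add_zero] at hz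
      have h3 := hπ ⟨z, hz⟩
      rw [h2] at h3
      exact (congrArg Subtype.val h3).symm
    · have hsurj : Function.Surjective (1 + (K + F) : Z →L[𝕜] Z) := by
        rw [← hadd, ← hSdef]
        intro z
        obtain ⟨n, hn⟩ := hJ (R.mkQ z)
        have h1 : z - L n ∈ R := by
          rw [← Submodule.Quotient.mk_eq_zero R]
          change R.mkQ (z - L n) = 0
          rw [map_sub, hL, hn, sub_self]
        obtain ⟨x, hx⟩ := h1
        have hx' : S x = z - L n := hx
        refine ⟨x + ((n : Z) - (π x : Z)), ?_⟩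
        rw [add_apply, map_add, map_sub, hSN, hSN, hF, map_add, map_sub, hπ, hπ, hx']
        have : π x + (n - π x) = n := by abel
        rw [this]
        abel
      exact isUnit_of_injective hKF (injective_of_surjective hKF hsurj)

variable {W : Type*} [NormedAddCommGroup W] [NormedSpace 𝕜 W] [CompleteSpace W]
variable {Y : Type*} [NormedAddCommGroup Y] [NormedSpace 𝕜 Y] [CompleteSpace Y]

/-- On `W × Y` with `Y` infinite dimensional, the identity of `W` factors through every identity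
plus compact operator. -/
theorem exists_factor (hY : ¬ FiniteDimensional 𝕜 Y) {K : (W × Y) →L[𝕜] (W × Y)}
    (hK : IsCompactOperator K) :
    ∃ (U : W →L[𝕜] (W × Y)) (V : (W × Y) →L[𝕜] W),
      ∀ w, V (((1 : (W × Y) →L[𝕜] (W × Y)) + K) (U w)) = w := by
  obtain ⟨F, hF, u, hu⟩ := exists_isUnit_add hK
  -- the finite rank defect
  let G : (W × Y) →L[𝕜] (W × Y) := ((u⁻¹ : ((W × Y) →L[𝕜] (W × Y))ˣ) : (W × Y) →L[𝕜] (W × Y))
  let D : (W × Y) →L[𝕜] (W × Y) := G.comp F
  have hGD : ∀ z, G (((1 : (W × Y) →L[𝕜] (W × Y)) + K) z) = z - D z := by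
    intro z
    have h1 : G * ((1 : (W × Y) →L[𝕜] (W × Y)) + K + F) = 1 := by
      rw [← hu]; exact u.inv_mul
    have h2 := congrArg (fun L : (W × Y) →L[𝕜] (W × Y) => L z) h1
    simp only [mul_apply_eq_comp, one_apply_eq_self, add_apply, map_add] at h2 ⊢
    rw [eq_sub_iff_add_eq]
    exact h2
  let f : W →L[𝕜] (W × Y) := D.comp (ContinuousLinearMap.inl 𝕜 W Y)
  let g : Y →L[𝕜] (W × Y) := D.comp (ContinuousLinearMap.inr 𝕜 W Y)
  have hfg : ∀ w y, D (w, y) = f w + g y := by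
    intro w y
    change D (w, y) = D (w, 0) + D (0, y)
    rw [← map_add]
    simp
  have hDfin : FiniteDimensional 𝕜 (LinearMap.range (D : (W × Y) →ₗ[𝕜] (W × Y))) := by
    have : LinearMap.range (D : (W × Y) →ₗ[𝕜] (W × Y)) =
        (LinearMap.range (F : (W × Y) →ₗ[𝕜] (W × Y))).map (G : (W × Y) →ₗ[𝕜] (W × Y)) := by
      rw [← LinearMap.range_comp]
      rfl
    rw [this]
    infer_instance
  -- the finite dimensional range of `f` and a section
  let E : Submodule 𝕜 (W × Y) := LinearMap.range (f : W →ₗ[𝕜] (W × Y))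
  have hE : FiniteDimensional 𝕜 E := by
    have hle : E ≤ LinearMap.range (D : (W × Y) →ₗ[𝕜] (W × Y)) := by
      rintro _ ⟨w, rfl⟩
      exact ⟨(w, 0), rfl⟩
    exact Submodule.finiteDimensional_of_le hle
  let fE : W →L[𝕜] E := f.codRestrict E (fun w => ⟨w, rfl⟩)
  have hfE : ∀ w, ((fE w : E) : W × Y) = f w := fun w => rfl
  have hfEs : Function.Surjective fE := by
    rintro ⟨_, ⟨w, rfl⟩⟩
    exact ⟨w, rfl⟩
  obtain ⟨σ, hσ⟩ := ContinuousLinearMap.HasRightInverse.of_surjective_of_finiteDimensional hfEs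
  -- the kernel of `g` is infinite dimensional
  let N : Submodule 𝕜 Y := LinearMap.ker (g : Y →ₗ[𝕜] (W × Y))
  have hN : ¬ FiniteDimensional 𝕜 N := by
    intro hN
    have hR : FiniteDimensional 𝕜 (LinearMap.range (g : Y →ₗ[𝕜] (W × Y))) := by
      have hle : LinearMap.range (g : Y →ₗ[𝕜] (W × Y)) ≤
          LinearMap.range (D : (W × Y) →ₗ[𝕜] (W × Y)) := by
        rintro _ ⟨w, rfl⟩
        exact ⟨(0, w), rfl⟩
      exact Submodule.finiteDimensional_of_le hle
    have hq : FiniteDimensional 𝕜 (Y ⧸ N) :=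
      LinearEquiv.finiteDimensional (g : Y →ₗ[𝕜] (W × Y)).quotKerEquivRange.symm
    exact hY (Module.Finite.of_submodule_quotient N)
  obtain ⟨ι, hι⟩ : ∃ ι : E →ₗ[𝕜] N, Function.Injective ι := by
    have h1 : Module.rank 𝕜 E < Cardinal.aleph0 := Module.rank_lt_aleph0 𝕜 E
    have h2 : Cardinal.aleph0 ≤ Module.rank 𝕜 N := by
      by_contra h
      exact hN (Module.rank_lt_aleph0_iff.1 (not_le.1 h))
    refine lift_rank_le_iff_exists_linearMap.1 ?_
    exact (Cardinal.lift_lt_aleph0.2 h1).le.trans (Cardinal.aleph0_le_lift.2 h2)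
  let ιY : E →ₗ[𝕜] Y := N.subtype ∘ₗ ι
  have hιY : Function.Injective ιY := N.injective_subtype.comp hι
  have hgι : ∀ e, g (ιY e) = 0 := fun e => (ι e).2
  let R : Submodule 𝕜 Y := LinearMap.range ιY
  obtain ⟨π, hπ⟩ := Submodule.ClosedComplemented.of_finiteDimensional (𝕜 := 𝕜) R
  let e : E ≃ₗ[𝕜] R := LinearEquiv.ofInjective ιY hιY
  let κ : Y →L[𝕜] E := (LinearMap.toContinuousLinearMap (e.symm : R →ₗ[𝕜] E)).comp π
  have hκ : ∀ v, κ (ιY v) = v := by
    intro v
    have h1 : π (ιY v) = e v := hπ (e v)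
    change e.symm (π (ιY v)) = v
    rw [h1, LinearEquiv.symm_apply_apply]
  let ιc : E →L[𝕜] Y := LinearMap.toContinuousLinearMap ιY
  refine ⟨(ContinuousLinearMap.id 𝕜 W - σ.comp fE).prod (ιc.comp fE),
    ((ContinuousLinearMap.fst 𝕜 W Y) + (σ.comp κ).comp (ContinuousLinearMap.snd 𝕜 W Y)).comp G,
    fun w => ?_⟩
  have h1 : D ((ContinuousLinearMap.id 𝕜 W - σ.comp fE).prod (ιc.comp fE) w) = 0 := by
    change D (w - σ (fE w), ιY (fE w)) = 0
    rw [hfg, hgι, add_zero, map_sub]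
    have h2 : f (σ (fE w)) = f w := by
      rw [← hfE, hσ, hfE]
    rw [h2, sub_self]
  rw [ContinuousLinearMap.comp_apply, hGD, h1, sub_zero]
  change (w - σ (fE w)) + σ (κ (ιY (fE w))) = w
  rw [hκ]
  abel

end Pool.Agent.R184PI
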