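import Pool.Agent.R184PI.Simple
import Pool.Agent.R184PI.Riesz

/-!
The unit of the algebra is not Murray-von Neumann equivalent to its double: there are no
`u₁, u₂, v₁, v₂` with `vᵢ uⱼ = δᵢⱼ` and `u₁ v₁ + u₂ v₂ = 1`.
-/

set_option autoImplicit false

open Filter Topology

namespace Pool.Agent.R184PI

/-- Splitting off the last letter. -/
noncomputable def Jp : Fk Unit →L[ℂ] Fk ℕ :=
  pull (fun p : List ℕ × ℕ => some (p.1 ++ [p.2], ())) (by
    rintro ⟨w, k⟩ ⟨w', k'⟩ ⟨v, l⟩ h h'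
    simp only [Option.some.injEq, Prod.mk.injEq] at h h'
    have h1 : w ++ [k] = w' ++ [k'] := by rw [h.1, h'.1]
    have h2 := List.append_inj' h1 rfl
    rw [h2.1]
    have h3 : k = k' := by simpa using h2.2
    rw [h3])

theorem Jp_apply (x : Fk Unit) (w : List ℕ) (k : ℕ) : Jp x (w, k) = x (w ++ [k], ()) := rfl

/-- Splitting a nonempty word into its beginning and its last letter. -/
def spl (p : List ℕ × Unit) : Option (List ℕ × ℕ) :=
  if h : p.1 = [] then none else some (p.1.dropLast, p.1.getLast h)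

theorem spl_nil : spl ([], ()) = none := by
  simp [spl]

theorem spl_ne {w : List ℕ} (hw : w ≠ []) : spl (w, ()) = some (w.dropLast, w.getLast hw) := by
  simp [spl, hw]

theorem pinj_spl : PInj spl := by
  rintro ⟨w, _⟩ ⟨w', _⟩ ⟨v, l⟩ h h'
  simp only [spl] at h h'
  split_ifs at h h' with h1 h2
  simp only [Option.some.injEq, Prod.mk.injEq] at h h'
  have e1 := List.dropLast_append_getLast h1
  have e2 := List.dropLast_append_getLast h2
  rw [h.1, h.2] at e1
  rw [h'.1, h'.2, e1] at e2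
  rw [e2]

/-- The embedding onto the complement of the vacuum. -/
noncomputable def Jn : Fk ℕ →L[ℂ] Fk Unit := pull spl pinj_spl

theorem Jn_nil (y : Fk ℕ) : Jn y ([], ()) = 0 := by
  change (spl ([], ())).elim 0 y = 0
  rw [spl_nil]
  rfl

theorem Jn_ne {w : List ℕ} (hw : w ≠ []) (y : Fk ℕ) :
    Jn y (w, ()) = y (w.dropLast, w.getLast hw) := by
  change (spl (w, ())).elim 0 y = _
  rw [spl_ne hw]
  rfl

theorem Jp_Jn (y : Fk ℕ) : Jp (Jn y) = y := by
  refine Hs.ext ?_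
  rintro ⟨w, k⟩
  rw [Jp_apply, Jn_ne (by simp)]
  simp

theorem Jn_Jp (x : Fk Unit) : Jn (Jp x) = x - x ([], ()) • vac := by
  refine Hs.ext ?_
  rintro ⟨w, _⟩
  rw [lp.coeFn_sub, Pi.sub_apply, lp.coeFn_smul, Pi.smul_apply]
  by_cases hw : w = []
  · subst hw
    rw [Jn_nil, vac_nil, smul_eq_mul, mul_one, sub_self]
  · rw [Jn_ne hw, Jp_apply, List.dropLast_append_getLast hw]
    obtain ⟨i, v, rfl⟩ := List.exists_cons_of_ne_nil hw
    rw [vac_cons, smul_zero, sub_zero]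

/-- The defect of intertwining. -/
noncomputable def dft (a : BB) : Fk Unit →L[ℂ] Fk ℕ := Jp.comp a.1 - a.2.comp Jp

theorem dft_apply (a : BB) (x : Fk Unit) : dft a x = Jp (a.1 x) - a.2 (Jp x) := rfl

/-- Elements with compact defect. -/
noncomputable def cptSub : Submodule ℂ BB where
  carrier := {a | IsCompactOperator (dft a)}
  add_mem' := by
    intro a b ha hb
    have h : dft (a + b) = dft a + dft b := by
      refine ContinuousLinearMap.ext fun x => ?_
      rw [add_apply, dft_apply, dft_apply, dft_apply]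
      change Jp (a.1 x + b.1 x) - (a.2 (Jp x) + b.2 (Jp x)) = _
      rw [map_add]; abel
    change IsCompactOperator (dft (a + b))
    rw [h]
    exact ha.add hb
  zero_mem' := by
    change IsCompactOperator (dft 0)
    have h : dft 0 = 0 := by
      refine ContinuousLinearMap.ext fun x => ?_
      rw [dft_apply]
      change Jp 0 - 0 = 0
      rw [map_zero, sub_zero]
    rw [h]
    exact isCompactOperator_zero
  smul_mem' := by
    intro c a ha
    have h : dft (c • a) = c • dft a := by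
      refine ContinuousLinearMap.ext fun x => ?_
      rw [smul_apply, dft_apply, dft_apply]
      change Jp (c • a.1 x) - c • a.2 (Jp x) = _
      rw [map_smul, smul_sub]
    change IsCompactOperator (dft (c • a))
    rw [h]
    exact ha.smul c

theorem isClosed_cptSub : IsClosed (cptSub : Set BB) := by
  have h1 : Continuous dft := by
    unfold dft
    fun_prop
  exact (isClosed_setOfPred_isCompactOperator (𝕜₁ := ℂ) (𝕜₂ := ℂ) (σ₁₂ := RingHom.id ℂ)).preimage h1

theorem dft_mul (a b : BB) : dft (a * b) = (dft a).comp b.1 + a.2.comp (dft b) := by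
  refine ContinuousLinearMap.ext fun x => ?_
  rw [add_apply, dft_apply, ContinuousLinearMap.comp_apply, ContinuousLinearMap.comp_apply,
    dft_apply, dft_apply, map_sub]
  change Jp (a.1 (b.1 x)) - a.2 (b.2 (Jp x)) = _
  abel

theorem cpt_mul {a b : BB} (ha : a ∈ cptSub) (hb : b ∈ cptSub) : a * b ∈ cptSub := by
  change IsCompactOperator (dft (a * b))
  rw [dft_mul]
  exact (ha.comp_clm b.1).add (hb.clm_comp a.2)

theorem cpt_one : (1 : BB) ∈ cptSub := by
  change IsCompactOperator (dft 1)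
  have h : dft 1 = 0 := by
    refine ContinuousLinearMap.ext fun x => ?_
    rw [dft_apply]
    exact sub_self _
  rw [h]
  exact isCompactOperator_zero

theorem cpt_star_gen (i : ℕ) : star (gen i) ∈ cptSub := by
  change IsCompactOperator (dft (star (gen i)))
  have h : dft (star (gen i)) = 0 := by
    refine ContinuousLinearMap.ext fun x => ?_
    rw [dft_apply, star_gen]
    exact sub_self _
  rw [h]
  exact isCompactOperator_zero

/-- The vacuum coordinate as a functional. -/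
noncomputable def evac : Fk Unit →L[ℂ] ℂ := innerSL ℂ vac

theorem evac_apply (x : Fk Unit) : evac x = x ([], ()) := by
  classical
  rw [evac, innerSL_apply_apply, vac, lp.inner_single_left]
  simp

theorem cpt_gen (i : ℕ) : gen i ∈ cptSub := by
  classical
  change IsCompactOperator (dft (gen i))
  have h : dft (gen i) =
      (ContinuousLinearMap.toSpanSingleton ℂ (lp.single 2 (([], i) : List ℕ × ℕ) (1 : ℂ) : Fk ℕ)).comp
        evac := by
    refine ContinuousLinearMap.ext fun x => Hs.ext ?_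
    rintro ⟨w, k⟩
    rw [dft_apply, ContinuousLinearMap.comp_apply, ContinuousLinearMap.toSpanSingleton_apply,
      evac_apply, lp.coeFn_sub, Pi.sub_apply, lp.coeFn_smul, Pi.smul_apply, Jp_apply]
    change cr Unit i x (w ++ [k], ()) - cr ℕ i (Jp x) (w, k) = _
    match w with
    | [] =>
      rw [List.nil_append, cr_cons, cr_nil, sub_zero, lp.single_apply]
      by_cases hk : k = i
      · subst hk; simp
      · simp [hk]
    | j :: w =>
      rw [List.cons_append, cr_cons, cr_cons, Jp_apply, sub_self, lp.single_apply]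
      simp
  rw [h]
  exact (isCompactOperator_of_locallyCompactSpace_dom evac).clm_comp
    (ContinuousLinearMap.toSpanSingleton ℂ (lp.single 2 (([], i) : List ℕ × ℕ) (1 : ℂ) : Fk ℕ))

theorem wd_cpt (w : List ℕ) : wd w ∈ cptSub := by
  induction w with
  | nil => exact cpt_one
  | cons i w ih => rw [wd_cons]; exact cpt_mul (cpt_gen i) ih

theorem star_wd_cpt (w : List ℕ) : star (wd w) ∈ cptSub := by
  induction w with
  | nil => rw [wd_nil, star_one]; exact cpt_one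
  | cons i w ih => rw [wd_cons, star_mul]; exact cpt_mul ih (cpt_star_gen i)

theorem OO_cpt {a : BB} (ha : a ∈ OO) : IsCompactOperator (dft a) :=
  mem_of_mon isClosed_cptSub (fun p => cpt_mul (wd_cpt p.1) (star_wd_cpt p.2)) ha

/-- The row map of two elements. -/
noncomputable def rowU (u₁ u₂ : BB) : (Fk Unit × Fk Unit) →L[ℂ] Fk Unit :=
  u₁.1.comp (ContinuousLinearMap.fst ℂ _ _) + u₂.1.comp (ContinuousLinearMap.snd ℂ _ _)

theorem rowU_apply (u₁ u₂ : BB) (x : Fk Unit × Fk Unit) :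
    rowU u₁ u₂ x = u₁.1 x.1 + u₂.1 x.2 := rfl

/-- The compact operator `Σ v.2 ∘ dft uⱼ ∘ projⱼ`. -/
noncomputable def colC (v u₁ u₂ : BB) : (Fk Unit × Fk Unit) →L[ℂ] Fk ℕ :=
  (v.2.comp (dft u₁)).comp (ContinuousLinearMap.fst ℂ _ _) +
    (v.2.comp (dft u₂)).comp (ContinuousLinearMap.snd ℂ _ _)

theorem colC_apply (v u₁ u₂ : BB) (x : Fk Unit × Fk Unit) :
    colC v u₁ u₂ x = v.2 (dft u₁ x.1) + v.2 (dft u₂ x.2) := rfl

theorem cpt_colC {v u₁ u₂ : BB} (h1 : u₁ ∈ OO) (h2 : u₂ ∈ OO) :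
    IsCompactOperator (colC v u₁ u₂) := by
  have e1 : IsCompactOperator ((v.2.comp (dft u₁)).comp (ContinuousLinearMap.fst ℂ (Fk Unit) (Fk Unit))) :=
    ((OO_cpt h1).clm_comp v.2).comp_clm (ContinuousLinearMap.fst ℂ (Fk Unit) (Fk Unit))
  have e2 : IsCompactOperator ((v.2.comp (dft u₂)).comp (ContinuousLinearMap.snd ℂ (Fk Unit) (Fk Unit))) :=
    ((OO_cpt h2).clm_comp v.2).comp_clm (ContinuousLinearMap.snd ℂ (Fk Unit) (Fk Unit))
  exact e1.add e2

theorem v_Jp_rowU (v u₁ u₂ : BB) (x : Fk Unit × Fk Unit) :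
    v.2 (Jp (rowU u₁ u₂ x)) = (v * u₁).2 (Jp x.1) + (v * u₂).2 (Jp x.2) + colC v u₁ u₂ x := by
  have e1 : Jp (u₁.1 x.1) = dft u₁ x.1 + u₁.2 (Jp x.1) := by rw [dft_apply]; abel
  have e2 : Jp (u₂.1 x.2) = dft u₂ x.2 + u₂.2 (Jp x.2) := by rw [dft_apply]; abel
  rw [rowU_apply, map_add, e1, e2, colC_apply]
  change v.2 _ = v.2 (u₁.2 (Jp x.1)) + v.2 (u₂.2 (Jp x.2)) + _
  simp only [map_add]
  abel

/-- The rank one operator `x ↦ (x)₀ vac`. -/
noncomputable def rk : Fk Unit →L[ℂ] Fk Unit :=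
  (ContinuousLinearMap.toSpanSingleton ℂ vac).comp evac

theorem rk_apply (x : Fk Unit) : rk x = x ([], ()) • vac := by
  change evac x • vac = _
  rw [evac_apply]

theorem cpt_rk : IsCompactOperator rk :=
  (isCompactOperator_of_locallyCompactSpace_dom evac).clm_comp
    (ContinuousLinearMap.toSpanSingleton ℂ vac)

/-- First component of the compact perturbation. -/
noncomputable def k₁ (v u₁ u₂ : BB) : (Fk Unit × Fk Unit) →L[ℂ] Fk Unit :=
  Jn.comp (colC v u₁ u₂) + rk.comp (rowU u₁ u₂) - rk.comp (ContinuousLinearMap.fst ℂ _ _)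

/-- Second component of the compact perturbation. -/
noncomputable def k₂ (v u₁ u₂ : BB) : (Fk Unit × Fk Unit) →L[ℂ] Fk Unit :=
  Jn.comp (colC v u₁ u₂) - rk.comp (ContinuousLinearMap.snd ℂ _ _)

theorem cpt_k₁ {v u₁ u₂ : BB} (h1 : u₁ ∈ OO) (h2 : u₂ ∈ OO) : IsCompactOperator (k₁ v u₁ u₂) := by
  have e1 : IsCompactOperator (Jn.comp (colC v u₁ u₂)) := (cpt_colC h1 h2).clm_comp Jn
  have e2 : IsCompactOperator (rk.comp (rowU u₁ u₂)) := cpt_rk.comp_clm (rowU u₁ u₂)
  have e3 : IsCompactOperator (rk.comp (ContinuousLinearMap.fst ℂ (Fk Unit) (Fk Unit))) :=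
    cpt_rk.comp_clm (ContinuousLinearMap.fst ℂ (Fk Unit) (Fk Unit))
  exact (e1.add e2).sub e3

theorem cpt_k₂ {v u₁ u₂ : BB} (h1 : u₁ ∈ OO) (h2 : u₂ ∈ OO) : IsCompactOperator (k₂ v u₁ u₂) := by
  have e1 : IsCompactOperator (Jn.comp (colC v u₁ u₂)) := (cpt_colC h1 h2).clm_comp Jn
  have e3 : IsCompactOperator (rk.comp (ContinuousLinearMap.snd ℂ (Fk Unit) (Fk Unit))) :=
    cpt_rk.comp_clm (ContinuousLinearMap.snd ℂ (Fk Unit) (Fk Unit))
  exact e1.sub e3

/-- There is no invertible row of length two. -/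
theorem no_double {u₁ u₂ v₁ v₂ : BB} (hu₁ : u₁ ∈ OO) (hu₂ : u₂ ∈ OO)
    (h11 : v₁ * u₁ = 1) (h12 : v₁ * u₂ = 0) (h21 : v₂ * u₁ = 0) (h22 : v₂ * u₂ = 1)
    (hs : u₁ * v₁ + u₂ * v₂ = 1) : False := by
  let K : (Fk Unit × Fk Unit) →L[ℂ] (Fk Unit × Fk Unit) :=
    (ContinuousLinearMap.inl ℂ _ _).comp (k₁ v₁ u₁ u₂) +
      (ContinuousLinearMap.inr ℂ _ _).comp (k₂ v₂ u₁ u₂)
  have hK : IsCompactOperator K := by
    have e1 : IsCompactOperator ((ContinuousLinearMap.inl ℂ (Fk Unit) (Fk Unit)).comp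
        (k₁ v₁ u₁ u₂)) := (cpt_k₁ hu₁ hu₂).clm_comp (ContinuousLinearMap.inl ℂ (Fk Unit) (Fk Unit))
    have e2 : IsCompactOperator ((ContinuousLinearMap.inr ℂ (Fk Unit) (Fk Unit)).comp
        (k₂ v₂ u₁ u₂)) := (cpt_k₂ hu₁ hu₂).clm_comp (ContinuousLinearMap.inr ℂ (Fk Unit) (Fk Unit))
    exact e1.add e2
  have hT1 : ∀ x, (((1 : (Fk Unit × Fk Unit) →L[ℂ] (Fk Unit × Fk Unit)) + K) x).1 =
      Jn (v₁.2 (Jp (rowU u₁ u₂ x))) + (rowU u₁ u₂ x) ([], ()) • vac := by
    intro x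
    change x.1 + (k₁ v₁ u₁ u₂ x + 0) = _
    rw [v_Jp_rowU, h11, h12, map_add, map_add]
    change x.1 + ((Jn (colC v₁ u₁ u₂ x) + rk (rowU u₁ u₂ x) - rk x.1) + 0) =
      Jn (Jp x.1) + Jn 0 + Jn (colC v₁ u₁ u₂ x) + _
    rw [rk_apply, rk_apply, Jn_Jp, map_zero]
    abel
  have hT2 : ∀ x, (((1 : (Fk Unit × Fk Unit) →L[ℂ] (Fk Unit × Fk Unit)) + K) x).2 =
      Jn (v₂.2 (Jp (rowU u₁ u₂ x))) := by
    intro x
    change x.2 + (0 + k₂ v₂ u₁ u₂ x) = _
    rw [v_Jp_rowU, h21, h22, map_add, map_add]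
    change x.2 + (0 + (Jn (colC v₂ u₁ u₂ x) - rk x.2)) =
      Jn 0 + Jn (Jp x.2) + Jn (colC v₂ u₁ u₂ x)
    rw [rk_apply, Jn_Jp, map_zero]
    abel
  have hinj : Function.Injective ((1 : (Fk Unit × Fk Unit) →L[ℂ] (Fk Unit × Fk Unit)) + K) := by
    rw [injective_iff_map_eq_zero]
    intro x hx
    have e1 := hT1 x
    have e2 := hT2 x
    rw [hx] at e1 e2
    have e3 : (rowU u₁ u₂ x) ([], ()) = 0 := by
      have := congrArg (fun y : Fk Unit => y ([], ())) e1
      simp only [lp.coeFn_add, Pi.add_apply, lp.coeFn_smul, Pi.smul_apply, Jn_nil, vac_nil] at this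
      simpa using this.symm
    rw [e3, zero_smul, add_zero] at e1
    have e4 : v₁.2 (Jp (rowU u₁ u₂ x)) = 0 := by
      rw [← Jp_Jn (v₁.2 (Jp (rowU u₁ u₂ x))), ← e1]
      exact map_zero Jp
    have e5 : v₂.2 (Jp (rowU u₁ u₂ x)) = 0 := by
      rw [← Jp_Jn (v₂.2 (Jp (rowU u₁ u₂ x))), ← e2]
      exact map_zero Jp
    have e6 : Jp (rowU u₁ u₂ x) = 0 := by
      have h1 : (u₁ * v₁ + u₂ * v₂).2 (Jp (rowU u₁ u₂ x)) = 0 := by
        change u₁.2 (v₁.2 (Jp (rowU u₁ u₂ x))) + u₂.2 (v₂.2 (Jp (rowU u₁ u₂ x))) = 0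
        rw [e4, e5, map_zero, map_zero, add_zero]
      rw [hs] at h1
      exact h1
    have e7 : rowU u₁ u₂ x = 0 := by
      have h1 := Jn_Jp (rowU u₁ u₂ x)
      rw [e6, e3, map_zero, zero_smul, sub_zero] at h1
      exact h1.symm
    have e8 : x.1 = 0 := by
      have h1 : v₁.1 (rowU u₁ u₂ x) = (v₁ * u₁).1 x.1 + (v₁ * u₂).1 x.2 := by
        rw [rowU_apply, map_add]; rfl
      rw [e7, h11, h12, map_zero] at h1
      have h2 : (0 : Fk Unit) = x.1 + 0 := h1
      rw [add_zero] at h2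
      exact h2.symm
    have e9 : x.2 = 0 := by
      have h1 : v₂.1 (rowU u₁ u₂ x) = (v₂ * u₁).1 x.1 + (v₂ * u₂).1 x.2 := by
        rw [rowU_apply, map_add]; rfl
      rw [e7, h21, h22, map_zero] at h1
      have h2 : (0 : Fk Unit) = 0 + x.2 := h1
      rw [zero_add] at h2
      exact h2.symm
    exact Prod.ext e8 e9
  have hunit := isUnit_of_injective hK hinj
  obtain ⟨u, hu⟩ := hunit
  let x := ((u⁻¹ : ((Fk Unit × Fk Unit) →L[ℂ] (Fk Unit × Fk Unit))ˣ) :
    (Fk Unit × Fk Unit) →L[ℂ] (Fk Unit × Fk Unit)) (0, vac)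
  have hx : ((1 : (Fk Unit × Fk Unit) →L[ℂ] (Fk Unit × Fk Unit)) + K) x = (0, vac) := by
    have h1 := congrArg (fun L : (Fk Unit × Fk Unit) →L[ℂ] (Fk Unit × Fk Unit) => L (0, vac))
      u.mul_inv
    rw [hu] at h1
    exact h1
  have h2 := hT2 x
  rw [hx] at h2
  have h3 := congrArg (fun y : Fk Unit => y ([], ())) h2
  simp only [Jn_nil, vac_nil] at h3
  exact one_ne_zero h3

end Pool.Agent.R184PI
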