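import Mathlib

/-!
Pull-back operators along partial injections on `ℓ²` spaces, and creation operators on the
Fock space `ℓ²(List ℕ × K)`.
-/

set_option autoImplicit false

open scoped ComplexInnerProductSpace

namespace Pool.Agent.R184PI

/-- `ℓ²(I)`. -/
abbrev Hs (I : Type) : Type := lp (fun _ : I => ℂ) 2

/-- A partial map that is injective where it is defined. -/
def PInj {I J : Type} (g : I → Option J) : Prop :=
  ∀ i i' j, g i = some j → g i' = some j → i = i'

theorem two_toReal : (0 : ℝ) < (2 : ENNReal).toReal := by norm_num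

open Classical in
theorem sum_pull {I J : Type} {g : I → Option J} (hg : PInj g) (f : J → ℝ) (s : Finset I) :
    ∑ i ∈ s, (g i).elim 0 f = ∑ j ∈ s.biUnion (fun i => (g i).toFinset), f j := by
  rw [Finset.sum_biUnion]
  · refine Finset.sum_congr rfl fun i _ => ?_
    cases h : g i with
    | none => simp
    | some j => simp
  · intro i _ i' _ hii'
    rw [Function.onFun, Finset.disjoint_left]
    intro j hj hj'
    rw [Option.mem_toFinset, Option.mem_def] at hj hj'
    exact hii' (hg i i' j hj hj')

theorem sum_pull_le {I J : Type} {g : I → Option J} (hg : PInj g) (x : Hs J) (s : Finset I) :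
    ∑ i ∈ s, ‖(g i).elim 0 x‖ ^ (2 : ENNReal).toReal ≤ ‖x‖ ^ (2 : ENNReal).toReal := by
  classical
  have h1 : ∀ i, ‖(g i).elim 0 x‖ ^ (2 : ENNReal).toReal =
      (g i).elim 0 (fun j => ‖x j‖ ^ (2 : ENNReal).toReal) := by
    intro i
    cases h : g i with
    | none => simp
    | some j => simp
  rw [Finset.sum_congr rfl fun i _ => h1 i, sum_pull hg]
  exact lp.sum_rpow_le_norm_rpow two_toReal x _

/-- The pull-back of a vector. -/
noncomputable def pullFun {I J : Type} (g : I → Option J) (hg : PInj g) (x : Hs J) : Hs I :=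
  ⟨fun i => (g i).elim 0 x, memℓp_gen' (sum_pull_le hg x)⟩

theorem pullFun_apply {I J : Type} (g : I → Option J) (hg : PInj g) (x : Hs J) (i : I) :
    pullFun g hg x i = (g i).elim 0 x := rfl

/-- The pull-back operator along a partial injection. -/
noncomputable def pull {I J : Type} (g : I → Option J) (hg : PInj g) : Hs J →L[ℂ] Hs I :=
  LinearMap.mkContinuous
    { toFun := pullFun g hg
      map_add' := fun x y => by
        apply lp.ext
        funext i
        rw [lp.coeFn_add, Pi.add_apply, pullFun_apply, pullFun_apply, pullFun_apply]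
        cases g i with
        | none => exact (add_zero (0 : ℂ)).symm
        | some j => rfl
      map_smul' := fun c x => by
        apply lp.ext
        funext i
        rw [lp.coeFn_smul, Pi.smul_apply, pullFun_apply, pullFun_apply]
        cases g i with
        | none => exact (smul_zero c).symm
        | some j => rfl }
    1 fun x => by
      rw [one_mul]
      exact lp.norm_le_of_forall_sum_le two_toReal (norm_nonneg x) (sum_pull_le hg x)

theorem pull_apply {I J : Type} (g : I → Option J) (hg : PInj g) (x : Hs J) (i : I) :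
    pull g hg x i = (g i).elim 0 x := rfl

theorem norm_pull_le {I J : Type} (g : I → Option J) (hg : PInj g) : ‖pull g hg‖ ≤ 1 :=
  LinearMap.mkContinuous_norm_le _ zero_le_one _

/-- extensionality on `ℓ²`. -/
theorem Hs.ext {I : Type} {x y : Hs I} (h : ∀ i, x i = y i) : x = y :=
  lp.ext (funext h)

/-- Deleting the first letter, when it is `i`. -/
def cre (K : Type) (i : ℕ) : List ℕ × K → Option (List ℕ × K)
  | ([], _) => none
  | (j :: w, k) => if j = i then some (w, k) else none

/-- Adding the letter `i` in front. -/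
def ann (K : Type) (i : ℕ) : List ℕ × K → Option (List ℕ × K) := fun p => some (i :: p.1, p.2)

theorem pinj_cre (K : Type) (i : ℕ) : PInj (cre K i) := by
  rintro ⟨w, k⟩ ⟨w', k'⟩ ⟨v, l⟩ h h'
  match w, w' with
  | [], _ => simp [cre] at h
  | _ :: _, [] => simp [cre] at h'
  | a :: w, b :: w' =>
    simp only [cre] at h h'
    split_ifs at h h' with h1 h2
    simp only [Option.some.injEq, Prod.mk.injEq] at h h'
    obtain ⟨rfl, rfl⟩ := h
    obtain ⟨rfl, rfl⟩ := h'
    rw [h1, h2]

theorem pinj_ann (K : Type) (i : ℕ) : PInj (ann K i) := by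
  rintro ⟨w, k⟩ ⟨w', k'⟩ ⟨v, l⟩ h h'
  simp only [ann, Option.some.injEq, Prod.mk.injEq] at h h'
  obtain ⟨h1, rfl⟩ := h
  obtain ⟨h2, rfl⟩ := h'
  rw [← h2] at h1
  simpa using h1

/-- Fock space with multiplicity `K`. -/
abbrev Fk (K : Type) : Type := Hs (List ℕ × K)

/-- Left creation operators. -/
noncomputable def cr (K : Type) (i : ℕ) : Fk K →L[ℂ] Fk K := pull (cre K i) (pinj_cre K i)

/-- Left annihilation operators. -/
noncomputable def an (K : Type) (i : ℕ) : Fk K →L[ℂ] Fk K := pull (ann K i) (pinj_ann K i)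

theorem cr_nil (K : Type) (i : ℕ) (x : Fk K) (k : K) : cr K i x ([], k) = 0 := rfl

theorem cr_cons (K : Type) (i j : ℕ) (x : Fk K) (w : List ℕ) (k : K) :
    cr K i x (j :: w, k) = if j = i then x (w, k) else 0 := by
  rw [cr, pull_apply]
  simp only [cre]
  split_ifs <;> rfl

theorem an_apply (K : Type) (i : ℕ) (x : Fk K) (w : List ℕ) (k : K) :
    an K i x (w, k) = x (i :: w, k) := rfl

theorem an_mul_cr (K : Type) (i j : ℕ) : an K i * cr K j = if i = j then 1 else 0 := by
  refine ContinuousLinearMap.ext fun x => Hs.ext ?_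
  rintro ⟨w, k⟩
  rw [mul_apply_eq_comp, an_apply, cr_cons]
  split_ifs <;> rfl

theorem star_cr (K : Type) (i : ℕ) : star (cr K i) = an K i := by
  rw [ContinuousLinearMap.star_eq_adjoint]
  symm
  rw [ContinuousLinearMap.eq_adjoint_iff]
  intro x y
  rw [lp.inner_eq_tsum, lp.inner_eq_tsum]
  have hinj : Function.Injective (fun p : List ℕ × K => (i :: p.1, p.2)) := by
    rintro ⟨w, k⟩ ⟨w', k'⟩ h
    simpa using h
  have h1 : ∀ p : List ℕ × K, inner ℂ (an K i x p) (y p) =
      (fun q => inner ℂ (x q) (cr K i y q)) ((fun p : List ℕ × K => (i :: p.1, p.2)) p) := by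
    rintro ⟨w, k⟩
    simp only [an_apply, cr_cons, if_true]
  rw [tsum_congr h1]
  refine Function.Injective.tsum_eq (f := fun q => (inner ℂ (x q) (cr K i y q) : ℂ)) hinj ?_
  rintro ⟨w, k⟩ hw
  rw [Function.mem_support] at hw
  match w with
  | [] => simp [cr_nil] at hw
  | j :: w =>
    rw [cr_cons] at hw
    split_ifs at hw with h
    · subst h; exact ⟨(w, k), rfl⟩
    · simp at hw

theorem star_an (K : Type) (i : ℕ) : star (an K i) = cr K i := by
  rw [← star_cr, star_star]

end Pool.Agent.R184PI
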