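import Pool.Agent.R184PI.Fock

/-!
Every nonzero element `a` of the algebra `OO` satisfies `x a y = 1` for some `x`, `y` in it.
-/

set_option autoImplicit false

open Filter Topology

namespace Pool.Agent.R184PI

/-- The vacuum vector. -/
noncomputable def vac : Fk Unit := by
  classical
  exact lp.single 2 (([], ()) : List ℕ × Unit) (1 : ℂ)

theorem vac_nil : vac ([], ()) = 1 := by
  classical
  simp [vac]

theorem vac_cons (i : ℕ) (w : List ℕ) : vac (i :: w, ()) = 0 := by
  classical
  simp [vac]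

theorem norm_vac : ‖vac‖ = 1 := by
  classical
  simp [vac, lp.norm_single]

/-- The vacuum functional. -/
noncomputable def lam (a : BB) : ℂ := (a.1 vac) ([], ())

theorem lam_add (a b : BB) : lam (a + b) = lam a + lam b := rfl

theorem lam_smul (c : ℂ) (a : BB) : lam (c • a) = c * lam a := rfl

theorem lam_sub (a b : BB) : lam (a - b) = lam a - lam b := rfl

theorem norm_lam_le (a : BB) : ‖lam a‖ ≤ ‖a‖ := by
  have h1 : ‖lam a‖ ≤ ‖a.1 vac‖ := lp.norm_apply_le_norm (by norm_num) _ _
  have h2 : ‖a.1 vac‖ ≤ ‖a.1‖ * ‖vac‖ := a.1.le_opNorm _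
  have h3 : ‖a.1‖ ≤ ‖a‖ := norm_fst_le a
  rw [norm_vac, mul_one] at h2
  exact h1.trans (h2.trans h3)

theorem norm_gen_le (i : ℕ) : ‖gen i‖ ≤ 1 := by
  exact norm_prod_le_iff.2 ⟨norm_pull_le _ _, norm_pull_le _ _⟩

theorem norm_star_gen_le (i : ℕ) : ‖star (gen i)‖ ≤ 1 := by
  rw [star_gen]
  exact norm_prod_le_iff.2 ⟨norm_pull_le _ _, norm_pull_le _ _⟩

/-- The compression by the `N`-th generator, minus the vacuum functional. -/
noncomputable def comp (N : ℕ) (a : BB) : BB := star (gen N) * a * gen N - lam a • 1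

theorem comp_add (N : ℕ) (a b : BB) : comp N (a + b) = comp N a + comp N b := by
  simp only [comp, lam_add, mul_add, add_mul, add_smul]
  abel

theorem comp_sub (N : ℕ) (a b : BB) : comp N (a - b) = comp N a - comp N b := by
  simp only [comp, lam_sub, mul_sub, sub_mul, sub_smul]
  abel

theorem comp_smul (N : ℕ) (c : ℂ) (a : BB) : comp N (c • a) = c • comp N a := by
  simp only [comp, lam_smul, mul_smul_comm, smul_mul_assoc, smul_sub, smul_smul]

theorem norm_one_le : ‖(1 : BB)‖ ≤ 1 := by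
  exact norm_prod_le_iff.2 ⟨ContinuousLinearMap.norm_id_le, ContinuousLinearMap.norm_id_le⟩

theorem norm_comp_le (N : ℕ) (a : BB) : ‖comp N a‖ ≤ 2 * ‖a‖ := by
  have h1 : ‖star (gen N) * a * gen N‖ ≤ ‖a‖ := by
    calc ‖star (gen N) * a * gen N‖ ≤ ‖star (gen N) * a‖ * ‖gen N‖ := norm_mul_le _ _
      _ ≤ ‖star (gen N)‖ * ‖a‖ * ‖gen N‖ := by gcongr; exact norm_mul_le _ _
      _ ≤ 1 * ‖a‖ * 1 := by
        gcongr
        · exact norm_star_gen_le N
        · exact norm_gen_le N
      _ = ‖a‖ := by ring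
  have h2 : ‖lam a • (1 : BB)‖ ≤ ‖a‖ := by
    calc ‖lam a • (1 : BB)‖ ≤ ‖lam a‖ * ‖(1 : BB)‖ := (norm_smul (lam a) (1 : BB)).le
      _ ≤ ‖a‖ * 1 := by
        gcongr
        · exact norm_lam_le a
        · exact norm_one_le
      _ = ‖a‖ := mul_one _
  calc ‖comp N a‖ ≤ ‖star (gen N) * a * gen N‖ + ‖lam a • (1 : BB)‖ := norm_sub_le _ _
    _ ≤ 2 * ‖a‖ := by linarith

/-- Elements whose compressions converge to the vacuum functional. -/
noncomputable def compSub : Submodule ℂ BB where
  carrier := {a | Tendsto (fun N => comp N a) atTop (𝓝 0)}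
  add_mem' := by
    intro a b ha hb
    have h := Tendsto.add ha hb
    rw [add_zero] at h
    exact h.congr fun N => (comp_add N a b).symm
  zero_mem' := by
    have : ∀ N, comp N 0 = 0 := fun N => by
      have := comp_smul N 0 0
      simpa using this
    exact tendsto_const_nhds.congr fun N => (this N).symm
  smul_mem' := by
    intro c a ha
    have h := Tendsto.const_smul ha c
    rw [smul_zero] at h
    exact h.congr fun N => (comp_smul N c a).symm

theorem isClosed_compSub : IsClosed (compSub : Set BB) := by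
  rw [← closure_subset_iff_isClosed]
  intro a ha
  rw [Metric.mem_closure_iff] at ha
  change Tendsto (fun N => comp N a) atTop (𝓝 0)
  rw [Metric.tendsto_atTop]
  intro ε hε
  obtain ⟨b, hb, hab⟩ := ha (ε / 4) (by positivity)
  have hb' : Tendsto (fun N => comp N b) atTop (𝓝 0) := hb
  rw [Metric.tendsto_atTop] at hb'
  obtain ⟨M, hM⟩ := hb' (ε / 2) (by positivity)
  refine ⟨M, fun n hn => ?_⟩
  have h1 := hM n hn
  rw [dist_zero_right] at h1 ⊢
  rw [dist_eq_norm_sub] at hab
  have h2 := norm_comp_le n (a - b)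
  have h3 : comp n a = comp n (a - b) + comp n b := by
    rw [comp_sub]; abel
  rw [h3]
  calc ‖comp n (a - b) + comp n b‖ ≤ ‖comp n (a - b)‖ + ‖comp n b‖ := norm_add_le _ _
    _ < ε := by linarith

theorem star_gen_mul_wd {N j : ℕ} (h : N ≠ j) (w : List ℕ) :
    star (gen N) * wd (j :: w) = 0 := by
  rw [wd_cons, ← mul_assoc, star_gen_mul, if_neg h, zero_mul]

theorem star_wd_mul_gen {N j : ℕ} (h : N ≠ j) (w : List ℕ) :
    star (wd (j :: w)) * gen N = 0 := by
  have := congrArg star (star_gen_mul_wd h w)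
  rwa [star_mul, star_star, star_zero] at this

theorem fst_star_wd_apply (v : List ℕ) : ∀ (x : Fk Unit) (w : List ℕ),
    ((star (wd v)).1 x) (w, ()) = x (v ++ w, ()) := by
  induction v with
  | nil =>
    intro x w
    rw [wd_nil, star_one]
    rfl
  | cons i v ih =>
    intro x w
    rw [wd_cons, star_mul]
    change ((star (wd v)).1 ((star (gen i)).1 x)) (w, ()) = _
    rw [ih, star_gen]
    rfl

theorem star_wd_vac (i : ℕ) (v : List ℕ) : (star (wd (i :: v))).1 vac = 0 := by
  refine Hs.ext ?_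
  rintro ⟨w, _⟩
  rw [fst_star_wd_apply, List.cons_append, vac_cons]
  rfl

theorem wd_apply_nil (i : ℕ) (v : List ℕ) (x : Fk Unit) : ((wd (i :: v)).1 x) ([], ()) = 0 := by
  rw [wd_cons]
  rfl

theorem mon_mem_compSub (p : List ℕ × List ℕ) : mon p ∈ compSub := by
  obtain ⟨v, w⟩ := p
  change Tendsto (fun N => comp N (mon (v, w))) atTop (𝓝 0)
  have key : ∃ M, ∀ N, M < N → comp N (mon (v, w)) = 0 := by
    match v, w with
    | [], [] =>
      refine ⟨0, fun N _ => ?_⟩
      have h1 : mon ([], []) = 1 := by simp [mon, wd_nil]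
      have h2 : lam 1 = 1 := vac_nil
      rw [comp, h1, h2, mul_one, star_gen_mul, if_pos rfl, one_smul, sub_self]
    | j :: v, w =>
      refine ⟨j, fun N hN => ?_⟩
      have h2 : lam (mon (j :: v, w)) = 0 := by
        change ((wd (j :: v)).1 ((star (wd w)).1 vac)) ([], ()) = 0
        exact wd_apply_nil _ _ _
      rw [comp, h2, zero_smul, sub_zero, mon]
      change star (gen N) * (wd (j :: v) * star (wd w)) * gen N = 0
      rw [← mul_assoc, star_gen_mul_wd (ne_of_gt hN), zero_mul, zero_mul]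
    | [], j :: w =>
      refine ⟨j, fun N hN => ?_⟩
      have h2 : lam (mon ([], j :: w)) = 0 := by
        change ((wd []).1 ((star (wd (j :: w))).1 vac)) ([], ()) = 0
        rw [star_wd_vac, map_zero]
        rfl
      rw [comp, h2, zero_smul, sub_zero, mon]
      change star (gen N) * (wd [] * star (wd (j :: w))) * gen N = 0
      rw [mul_assoc, mul_assoc, star_wd_mul_gen (ne_of_gt hN), mul_zero, mul_zero]
  obtain ⟨M, hM⟩ := key
  refine tendsto_const_nhds.congr' ?_
  filter_upwards [eventually_gt_atTop M] with N hN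
  exact (hM N hN).symm

theorem tendsto_comp {a : BB} (ha : a ∈ OO) : Tendsto (fun N => comp N a) atTop (𝓝 0) :=
  mem_of_mon (V := compSub) isClosed_compSub mon_mem_compSub ha

/-- The coordinate maps from the amplified space. -/
noncomputable def Pk (k : ℕ) : Fk ℕ →L[ℂ] Fk Unit :=
  pull (fun p : List ℕ × Unit => some (p.1, k)) (by
    rintro ⟨w, _⟩ ⟨w', _⟩ ⟨v, l⟩ h h'
    simp only [Option.some.injEq, Prod.mk.injEq] at h h'
    rw [h.1, h'.1])

theorem Pk_apply (k : ℕ) (x : Fk ℕ) (w : List ℕ) : Pk k x (w, ()) = x (w, k) := rfl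

/-- Pairs intertwined by the coordinate map. -/
noncomputable def twinSub (k : ℕ) : Submodule ℂ BB where
  carrier := {a | ∀ x, Pk k (a.2 x) = a.1 (Pk k x)}
  add_mem' := by
    intro a b ha hb x
    change Pk k (a.2 x + b.2 x) = a.1 (Pk k x) + b.1 (Pk k x)
    rw [map_add, ha, hb]
  zero_mem' := by
    intro x
    change Pk k 0 = 0
    rw [map_zero]
  smul_mem' := by
    intro c a ha x
    change Pk k (c • a.2 x) = c • a.1 (Pk k x)
    rw [map_smul, ha]

theorem isClosed_twinSub (k : ℕ) : IsClosed (twinSub k : Set BB) := by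
  have h : (twinSub k : Set BB) = ⋂ x, {a : BB | Pk k (a.2 x) = a.1 (Pk k x)} := by
    ext a
    simp only [Set.mem_iInter]
    exact Iff.rfl
  rw [h]
  refine isClosed_iInter fun x => ?_
  exact isClosed_eq (by fun_prop) (by fun_prop)

theorem twin_mul {k : ℕ} {a b : BB} (ha : a ∈ twinSub k) (hb : b ∈ twinSub k) :
    a * b ∈ twinSub k := by
  intro x
  change Pk k (a.2 (b.2 x)) = a.1 (b.1 (Pk k x))
  rw [ha, hb]

theorem gen_twin (k i : ℕ) : gen i ∈ twinSub k := by
  intro x
  refine Hs.ext ?_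
  rintro ⟨w, _⟩
  match w with
  | [] => rfl
  | j :: w =>
    change cr ℕ i x (j :: w, k) = cr Unit i (Pk k x) (j :: w, ())
    rw [cr_cons, cr_cons]
    rfl

theorem star_gen_twin (k i : ℕ) : star (gen i) ∈ twinSub k := by
  rw [star_gen]
  intro x
  refine Hs.ext ?_
  rintro ⟨w, _⟩
  rfl

theorem one_twin (k : ℕ) : (1 : BB) ∈ twinSub k := fun _ => rfl

theorem wd_twin (k : ℕ) (w : List ℕ) : wd w ∈ twinSub k := by
  induction w with
  | nil => exact one_twin k
  | cons i w ih => rw [wd_cons]; exact twin_mul (gen_twin k i) ih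

theorem star_wd_twin (k : ℕ) (w : List ℕ) : star (wd w) ∈ twinSub k := by
  induction w with
  | nil => rw [wd_nil, star_one]; exact one_twin k
  | cons i w ih => rw [wd_cons, star_mul]; exact twin_mul ih (star_gen_twin k i)

theorem OO_twin (k : ℕ) {a : BB} (ha : a ∈ OO) : a ∈ twinSub k :=
  mem_of_mon (isClosed_twinSub k) (fun p => twin_mul (wd_twin k p.1) (star_wd_twin k p.2)) ha

theorem fst_ne_zero {a : BB} (ha : a ∈ OO) (h0 : a ≠ 0) : a.1 ≠ 0 := by
  intro h1
  refine h0 (Prod.ext h1 ?_)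
  refine ContinuousLinearMap.ext fun x => Hs.ext ?_
  rintro ⟨w, k⟩
  have h2 := OO_twin k ha x
  rw [h1] at h2
  have h3 : Pk k (a.2 x) (w, ()) = 0 := by
    rw [h2]; rfl
  exact h3

open Classical in
theorem wd_vac (w : List ℕ) :
    (wd w).1 vac = lp.single 2 ((w, ()) : List ℕ × Unit) (1 : ℂ) := by
  induction w with
  | nil =>
    rw [wd_nil]
    change vac = _
    rw [vac]
  | cons i w ih =>
    rw [wd_cons]
    change cr Unit i ((wd w).1 vac) = _
    rw [ih]
    refine Hs.ext ?_
    rintro ⟨v, _⟩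
    match v with
    | [] => simp [cr_nil]
    | j :: v =>
      rw [cr_cons, lp.single_apply, lp.single_apply]
      by_cases hj : j = i
      · subst hj
        by_cases hv : v = w
        · subst hv; simp
        · simp [hv]
      · simp [hj]

theorem exists_lam_ne {a : BB} (ha : a ∈ OO) (h0 : a ≠ 0) :
    ∃ v w : List ℕ, lam (star (wd v) * a * wd w) ≠ 0 := by
  classical
  by_contra h
  push Not at h
  refine fst_ne_zero ha h0 ?_
  refine lp.ext_continuousLinearMap (by norm_num) ?_
  rintro ⟨w, _⟩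
  refine ContinuousLinearMap.ext_ring ?_
  refine Hs.ext ?_
  rintro ⟨v, _⟩
  have h1 := h v w
  change ((star (wd v)).1 (a.1 ((wd w).1 vac))) ([], ()) = 0 at h1
  rw [fst_star_wd_apply, wd_vac, List.append_nil] at h1
  exact h1

/-- Pure infiniteness: every nonzero element compresses to the identity. -/
theorem exists_mul_mul_eq_one {a : OA} (h0 : a ≠ 0) : ∃ x y : OA, x * a * y = 1 := by
  have h0' : (a : BB) ≠ 0 := fun h => h0 (Subtype.ext h)
  obtain ⟨v, w, hvw⟩ := exists_lam_ne a.2 h0'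
  let V : OA := ⟨wd v, wd_mem v⟩
  let W : OA := ⟨wd w, wd_mem w⟩
  let b : OA := star V * a * W
  have hb : lam (b : BB) ≠ 0 := hvw
  have h1 := tendsto_comp b.2
  let G : ℕ → OA := fun N => ⟨gen N, gen_mem N⟩
  have h2 : Tendsto (fun N => star (G N) * b * G N) atTop (𝓝 (lam (b : BB) • (1 : OA))) := by
    rw [tendsto_subtype_rng]
    have h3 := h1.add_const (lam (b : BB) • (1 : BB))
    rw [zero_add] at h3
    refine h3.congr fun N => ?_
    rw [comp, sub_add_cancel]
    rfl
  have h3 : IsUnit (lam (b : BB) • (1 : OA)) := by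
    rw [← Algebra.algebraMap_eq_smul_one]
    exact (IsUnit.mk0 _ hb).map (algebraMap ℂ OA)
  obtain ⟨N, hN⟩ := (h2.eventually (Units.isOpen.mem_nhds h3)).exists
  obtain ⟨u, hu⟩ := hN
  refine ⟨(u⁻¹ : OAˣ) * (star (G N) * star V), W * G N, ?_⟩
  have h4 : (u⁻¹ : OAˣ) * (star (G N) * star V) * a * (W * G N) =
      (u⁻¹ : OAˣ) * (star (G N) * b * G N) := by
    simp only [b, mul_assoc]
  rw [h4]
  change (u⁻¹ : OAˣ) * (star (G N) * b * G N) = 1
  rw [← hu, Units.inv_mul]

end Pool.Agent.R184PI
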